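import Pool.Agent.TOR.Stmts

set_option autoImplicit false

/-!
# Squad TOR, rows DUL and SNZ
-/

namespace Pool.Agent.TOR.H8

open MvPolynomial
open Pool.Agent.RS (FF io total numer)

theorem clu_vars {E : Type} [Field E] {c n s D : ℕ} {T : MvPolynomial ℕ E} (h : IsClu E c n s D T) :
    T.vars ⊆ Finset.range n := by
  classical
  obtain ⟨N, M, f, e, a, b, -, -, hf, ha, hb, hT⟩ := h
  by_cases hT0 : T = 0
  · rw [hT0]
    simp
  intro i hi
  rw [Finset.mem_range]
  by_contra hin
  have hb0 : ∏ t, b t ≠ 0 := Finset.prod_ne_zero_iff.2 fun t _ => (hb t).2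
  have hs : ∀ p : MvPolynomial ℕ E, p.vars ⊆ Finset.range n → p ∈ supported E {i : ℕ | i < n} := by
    intro p hp
    rw [mem_supported]
    intro j hj
    exact Finset.mem_range.1 (hp hj)
  have h1 : (∏ v, f v ^ e v) * ∑ t, a t * ∏ t' ∈ Finset.univ.erase t, b t' ∈
      supported E {i : ℕ | i < n} := by
    refine Subalgebra.mul_mem _ (Subalgebra.prod_mem _ fun v _ =>
      Subalgebra.pow_mem _ (hs _ (hf v).1) _) ?_
    refine Subalgebra.sum_mem _ fun t _ => Subalgebra.mul_mem _ (hs _ (ha t).1) ?_
    exact Subalgebra.prod_mem _ fun t' _ => hs _ (hb t').1.1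
  rw [← hT, mem_supported] at h1
  have h2 : i ∈ (T * ∏ t, b t).vars := by
    rw [mem_vars_iff_degreeOf_ne_zero] at hi ⊢
    rw [degreeOf_mul_eq hT0 hb0]
    omega
  exact hin (h1 h2)

theorem der_sum {E : Type} [Field E] (n : ℕ)
    (D : ℕ → Derivation E (MvPolynomial ℕ E) (MvPolynomial ℕ E)) (f : MvPolynomial ℕ E) :
    (∑ l ∈ Finset.range n, D l) f = ∑ l ∈ Finset.range n, D l f := by
  induction n with
  | zero => simp
  | succ n ih => rw [Finset.sum_range_succ, Finset.sum_range_succ, Derivation.add_apply, ih]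

theorem dul : DulStmt := by
  intro E _
  refine ⟨?_, fun c n s D T h => clu_vars h⟩
  intro n f u hf
  have hs : f ∈ supported E {i : ℕ | i < n} := by
    rw [mem_supported]
    intro j hj
    exact Finset.mem_range.1 (hf hj)
  have key : Du u f = (∑ l ∈ Finset.range n, (C (u l) * X l : MvPolynomial ℕ E) •
      (pderiv l : Derivation E (MvPolynomial ℕ E) (MvPolynomial ℕ E))) f := by
    refine derivation_eqOn_supported (s := {i : ℕ | i < n}) ?_ hs
    intro i hi
    have hi' : i < n := hi
    show Du u (X i) = (∑ l ∈ Finset.range n, (C (u l) * X l : MvPolynomial ℕ E) •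
      (pderiv l : Derivation E (MvPolynomial ℕ E) (MvPolynomial ℕ E))) (X i)
    rw [Du, mkDerivation_X, der_sum, Finset.sum_eq_single i]
    · rw [Derivation.smul_apply, pderiv_X_self, smul_eq_mul, mul_one]
    · intro j _ hj
      rw [Derivation.smul_apply, pderiv_X_of_ne (Ne.symm hj), smul_zero]
    · intro h
      exact absurd (Finset.mem_range.2 hi') h
  rw [key, der_sum]
  refine Finset.sum_congr rfl fun l _ => ?_
  rw [Derivation.smul_apply, smul_eq_mul, mul_assoc]

theorem snz (h : SubStmt) : SnzStmt := by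
  classical
  intro E _ e L ν f hM hinj hf
  obtain ⟨h1, h2, -⟩ := h E e
  obtain ⟨s₀, hs₀⟩ := support_nonempty.2 hf
  have hsum : sub e f = ∑ s ∈ f.support, monomial (s.sum fun i m => m • e i) (coeff s f) := by
    conv_lhs => rw [f.as_sum]
    rw [map_sum]
    exact Finset.sum_congr rfl fun s _ => h1 s _
  have hne : ∀ s ∈ f.support, (s.sum fun i m => m • e i) = (s₀.sum fun i m => m • e i) → s = s₀ := by
    intro s hs hss
    have hv : vec s - vec s₀ ∈ L := by
      have h3 := L.sub_mem (hM s hs) (hM s₀ hs₀)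
      rwa [sub_sub_sub_cancel_right] at h3
    have hl : lin e (vec s - vec s₀) = 0 := by
      rw [map_sub, h2, h2, hss, sub_self]
    have h4 := sub_eq_zero.1 (hinj _ hv hl)
    have hvi : Function.Injective (vec) := by
      intro x y hxy
      exact Finsupp.mapRange_injective (fun a : ℕ => (a : ℚ)) Nat.cast_zero Nat.cast_injective hxy
    exact hvi h4
  intro h0
  have h5 : coeff (s₀.sum fun i m => m • e i) (sub e f) = coeff s₀ f := by
    rw [hsum, coeff_sum, Finset.sum_eq_single s₀]
    · rw [coeff_monomial, if_pos rfl]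
    · intro s hs hne'
      rw [coeff_monomial, if_neg fun hh => hne' (hne s hs hh)]
    · intro hh
      exact absurd hs₀ hh
  rw [h0, coeff_zero] at h5
  exact (mem_support_iff.1 hs₀) h5.symm

end Pool.Agent.TOR.H8
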