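import Pool.Agent.TOR.Stmts
import Pool.Agent.Helper64_RS.DER
import Pool.Agent.Helper47_RS.NMT

set_option autoImplicit false

/-!
# Squad TOR, row EXP: the entries of the Jacobian matrix
-/

namespace Pool.Agent.TOR.H8

open MvPolynomial
open Pool.Agent.RS (FF io total numer io_injective)

/-- The logarithmic derivative of a product of powers. -/
theorem log_der {K ι : Type} [Field K] (D : K →+ K) (hD : ∀ x y, D (x * y) = x * D y + y * D x)
    (s : Finset ι) (g : ι → K) (hg : ∀ v, g v ≠ 0) (e : ι → ℕ) :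
    D (∏ v ∈ s, g v ^ e v) = (∏ v ∈ s, g v ^ e v) * ∑ v ∈ s, (e v : K) * (D (g v) / g v) := by
  classical
  have h1 : D 1 = 0 := by
    have h := hD 1 1
    rw [one_mul, one_mul] at h
    have h2 : D 1 + D 1 = D 1 + 0 := by rw [add_zero, ← h]
    exact add_left_cancel h2
  have hp : ∀ (v : ι) (n : ℕ), D (g v ^ n) = g v ^ n * ((n : K) * (D (g v) / g v)) := by
    intro v n
    induction n with
    | zero => rw [pow_zero, h1, Nat.cast_zero, zero_mul, mul_zero]
    | succ n ih =>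
      rw [pow_succ, hD, ih, Nat.cast_succ]
      have := hg v
      field_simp
      ring
  induction s using Finset.induction_on with
  | empty => simp [h1]
  | insert a s ha ih =>
    rw [Finset.prod_insert ha, Finset.sum_insert ha, hD, ih, hp]
    ring

/-- The derivative of a cluster with powers. -/
theorem entryD {E : Type} [Field E] {N M : ℕ} (D : Derivation E (MvPolynomial ℕ E) (MvPolynomial ℕ E))
    (T : MvPolynomial ℕ E) (f : Fin N → MvPolynomial ℕ E) (e : Fin N → ℕ)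
    (a b : Fin M → MvPolynomial ℕ E) (hf : ∀ v, f v ≠ 0)
    (hb : ∀ t, b t ≠ 0) (hT : T * ∏ t, b t = (∏ v, f v ^ e v) * numer a b) :
    io E (D T) = io E (∏ v, f v ^ e v) *
      (∑ t, io E (D (a t) * b t - a t * D (b t)) / io E (b t * b t) +
        ∑ t, ∑ v, io E (C ((e v : ℕ) : E) * (a t * D (f v))) / io E (b t * f v)) := by
  classical
  obtain ⟨D', hD, hL⟩ := Pool.Agent.RS.H64.der E (MvPolynomial ℕ E) D
  have hio : Function.Injective (io E) := io_injective
  have hne : ∀ p : MvPolynomial ℕ E, p ≠ 0 → io E p ≠ 0 := by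
    intro p hp h
    rw [← map_zero (io E)] at h
    exact hp (hio h)
  have hbp : ∏ t, b t ≠ 0 := Finset.prod_ne_zero_iff.2 fun t _ => hb t
  obtain ⟨-, -, hn3⟩ := Pool.Agent.RS.H47.nmt (Fin M)
  obtain ⟨htot, -⟩ := hn3 E a b hb
  have hT' : io E T = io E (∏ v, f v ^ e v) * total a b := by
    have h1 := congrArg (io E) hT
    rw [map_mul, map_mul] at h1
    rw [htot, ← mul_div_assoc, eq_div_iff (hne _ hbp)]
    exact h1
  have hquot : ∀ t, D' (io E (a t) / io E (b t)) =
      io E (D (a t) * b t - a t * D (b t)) / io E (b t * b t) := by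
    intro t
    have hbt := hne _ (hb t)
    have h1 : D' (io E (b t) * (io E (a t) / io E (b t))) = D' (io E (a t)) := by
      rw [mul_div_cancel₀ _ hbt]
    rw [hL, hD, hD] at h1
    rw [map_sub, map_mul, map_mul, map_mul, eq_div_iff (mul_ne_zero hbt hbt)]
    have h2 : io E (b t) * D' (io E (a t) / io E (b t)) = io E (D (a t)) -
        io E (a t) / io E (b t) * io E (D (b t)) := by
      rw [eq_sub_iff_add_eq]
      exact h1
    calc D' (io E (a t) / io E (b t)) * (io E (b t) * io E (b t))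
        = (io E (b t) * D' (io E (a t) / io E (b t))) * io E (b t) := by ring
      _ = _ := by
        rw [h2, sub_mul]
        congr 1
        rw [mul_assoc, mul_comm (io E (D (b t))), ← mul_assoc, div_mul_cancel₀ _ hbt]
  have hW : D' (total a b) = ∑ t, io E (D (a t) * b t - a t * D (b t)) /
      io E (b t * b t) := by
    unfold total
    rw [map_sum]
    exact Finset.sum_congr rfl fun t _ => hquot t
  have hP : D' (io E (∏ v, f v ^ e v)) = io E (∏ v, f v ^ e v) *
      ∑ v, ((e v : ℕ) : FF E) * (io E (D (f v)) / io E (f v)) := by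
    rw [map_prod]
    simp only [map_pow]
    rw [log_der D' hL Finset.univ (fun v => io E (f v)) (fun v => hne _ (hf v)) e]
    simp only [hD]
  have h3 : io E (D T) = D' (io E T) := (hD T).symm
  rw [h3, hT', hL, hW, hP, mul_add]
  congr 1
  rw [mul_left_comm]
  congr 1
  unfold total
  rw [Finset.sum_mul]
  refine Finset.sum_congr rfl fun t _ => ?_
  rw [Finset.mul_sum]
  refine Finset.sum_congr rfl fun v _ => ?_
  have hc : io E (C ((e v : ℕ) : E)) = ((e v : ℕ) : FF E) := by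
    rw [map_natCast, map_natCast]
  rw [map_mul, map_mul, map_mul, hc, mul_left_comm, div_mul_div_comm]
  ring

/-- The exponent vector as an integer vector. -/
noncomputable def iv (s : ℕ →₀ ℕ) : ℕ →₀ ℤ := s.mapRange (fun a : ℕ => (a : ℤ)) Nat.cast_zero

theorem zvec_sub (s s' : ℕ →₀ ℕ) : zvec (iv s - iv s') = vec s - vec s' := by
  ext l
  simp [zvec, iv, vec]

theorem mon_C {E : Type} [Field E] (L : Submodule ℚ (ℕ →₀ ℚ)) (ν : ℕ →₀ ℚ) (r : E)
    (g : MvPolynomial ℕ E) (h : Mon L ν g) : Mon L ν (C r * g) := by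
  intro s hs
  refine h s ?_
  rw [mem_support_iff] at hs ⊢
  intro h0
  rw [coeff_C_mul, h0, mul_zero] at hs
  exact hs rfl

theorem mon_zero {E : Type} [Field E] (L : Submodule ℚ (ℕ →₀ ℚ)) (ν : ℕ →₀ ℚ) :
    Mon L ν (0 : MvPolynomial ℕ E) := by
  intro s hs
  rw [support_zero] at hs
  exact absurd hs (Finset.notMem_empty s)

theorem thin_one (E : Type) [Field E] (c n D : ℕ) : IsThin E c n D (1 : MvPolynomial ℕ E) := by
  refine ⟨?_, ?_, ?_⟩
  · rw [vars_one]
    exact Finset.empty_subset _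
  · rw [totalDegree_one]
    exact Nat.zero_le D
  · have h1 : ((1 : MvPolynomial ℕ E).support : Set (ℕ →₀ ℕ)) ⊆ {0} := by
      intro s hs
      rw [Finset.mem_coe, mem_support_iff, coeff_one] at hs
      rw [Set.mem_singleton_iff]
      by_contra h
      exact hs (if_neg fun h' => h h'.symm)
    have h2 : (vec '' ((1 : MvPolynomial ℕ E).support : Set (ℕ →₀ ℕ))).Subsingleton :=
      (Set.subsingleton_singleton.anti h1).image _
    rw [vectorSpan_of_subsingleton ℚ h2, finrank_bot]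
    exact Nat.zero_le c

theorem thin_data (hM : MonStmt) (E : Type) [Field E] (c n D : ℕ)
    (hI : ∀ (n D : ℕ) (V : Submodule ℚ (ℕ →₀ ℚ)), IntSpan n D V → FiniteDimensional ℚ V)
    (g : MvPolynomial ℕ E) (hg : IsThin E c n D g) :
    ∃ (L : Submodule ℚ (ℕ →₀ ℚ)) (s : ℕ →₀ ℕ), Mon L (vec s) g ∧ IntSpan n D L ∧
      FiniteDimensional ℚ L ∧ Module.finrank ℚ L ≤ c ∧ (∀ l, s l ≤ D) ∧ ∀ l, n ≤ l → s l = 0 := by
  obtain ⟨-, -, -, -, -, m6, m7⟩ := hM E
  by_cases h0 : g = 0
  · refine ⟨⊥, 0, ?_, ?_, ?_, ?_, ?_, ?_⟩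
    · rw [h0]
      exact mon_zero _ _
    · refine ⟨∅, ?_, ?_⟩
      · intro x hx
        exact absurd hx (Finset.notMem_empty x)
      · simp
    · infer_instance
    · rw [finrank_bot]
      exact Nat.zero_le c
    · intro l
      exact Nat.zero_le D
    · intro l _
      rfl
  · obtain ⟨s₀, hs₀, hm⟩ := m6 g h0
    obtain ⟨h1, h2⟩ := m7 c n D g hg
    exact ⟨_, s₀, hm, h1, hI n D _ h1, hg.2.2, (h2 s₀ hs₀).1, (h2 s₀ hs₀).2⟩

theorem exp (hM : MonStmt) (hIsp : IspStmt) (hSnz : SnzStmt) : ExpStmt := by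
  classical
  intro E _ c n s D T hclu hT0
  obtain ⟨i1, -, -, -, i5, i6, -, -⟩ := hIsp
  obtain ⟨m1, -, m3, m4, m5, -, -⟩ := hM E
  obtain ⟨N, M, f₀, e, a, b, hN, hMs, hf₀, ha, hb, hT₀⟩ := hclu
  -- replace unused factors by 1
  obtain ⟨f, hfdef⟩ : ∃ f : Fin N → MvPolynomial ℕ E, f = fun v => if e v = 0 then 1 else f₀ v :=
    ⟨_, rfl⟩
  have hff : ∀ v, f v ^ e v = f₀ v ^ e v := by
    intro v
    rw [hfdef]
    by_cases h : e v = 0
    · rw [h, pow_zero, pow_zero]
    · simp only [if_neg h]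
  have hft : ∀ v, IsThin E c n D (f v) := by
    intro v
    rw [hfdef]
    by_cases h : e v = 0
    · simp only [if_pos h]
      exact thin_one E c n D
    · simp only [if_neg h]
      exact hf₀ v
  have hT : T * ∏ t, b t = (∏ v, f v ^ e v) * numer a b := by
    rw [Finset.prod_congr rfl fun v _ => hff v]
    exact hT₀
  have hb0 : ∀ t, b t ≠ 0 := fun t => (hb t).2
  have hTb : T * ∏ t, b t ≠ 0 := mul_ne_zero hT0 (Finset.prod_ne_zero_iff.2 fun t _ => hb0 t)
  have hP0 : ∏ v, f v ^ e v ≠ 0 := by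
    intro h
    rw [hT, h, zero_mul] at hTb
    exact hTb rfl
  have hf : ∀ v, f v ≠ 0 := by
    intro v h
    by_cases he : e v = 0
    · rw [hfdef] at h
      simp only [if_pos he] at h
      exact one_ne_zero h
    · exact hP0 (Finset.prod_eq_zero (Finset.mem_univ v) (by rw [h, zero_pow he]))
  have hM0 : Nonempty (Fin M) := by
    rw [← not_isEmpty_iff]
    intro hem
    apply hTb
    rw [hT]
    have hnum : numer a b = 0 := by
      unfold numer
      exact Finset.sum_eq_zero fun t _ => (hem.false t).elim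
    rw [hnum, mul_zero]
  obtain ⟨t₀⟩ := hM0
  -- data
  choose la sa ha1 ha2 ha3 ha4 ha5 ha6 using fun t => thin_data hM E c n D i5 (a t) (ha t)
  choose lb sb hb1 hb2 hb3 hb4 hb5 hb6 using fun t => thin_data hM E c n D i5 (b t) (hb t).1
  choose lf sf hf1 hf2 hf3 hf4 hf5 hf6 using fun v => thin_data hM E c n D i5 (f v) (hft v)
  have hab : ∀ t, FiniteDimensional ℚ (la t ⊔ lb t : Submodule ℚ (ℕ →₀ ℚ)) := fun t =>
    i5 n D _ (i1 n D _ _ (ha2 t) (hb2 t))
  have habr : ∀ t, Module.finrank ℚ (la t ⊔ lb t : Submodule ℚ (ℕ →₀ ℚ)) ≤ 2 * c := by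
    intro t
    have h1 := i6 (la t) (lb t) (ha3 t) (hb3 t)
    have h2 := ha4 t
    have h3 := hb4 t
    omega
  refine ⟨Fin M ⊕ (Fin M × Fin N), inferInstance, ∏ v, f v ^ e v,
    fun u => Sum.elim (fun t => Du u (a t) * b t - a t * Du u (b t))
      (fun p => C ((e p.2 : ℕ) : E) * (a p.1 * Du u (f p.2))),
    Sum.elim (fun t => b t * b t) (fun p => b p.1 * f p.2),
    Sum.elim (fun t => la t ⊔ lb t) (fun p => la p.1 ⊔ lb p.1 ⊔ lf p.2),
    Sum.elim (fun t => vec (sb t) + vec (sb t)) (fun p => vec (sb p.1) + vec (sf p.2)),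
    Sum.elim (fun t => iv (sa t) - iv (sb t)) (fun p => iv (sa p.1) - iv (sb p.1)),
    ?_, ?_, ?_, ?_, ?_, ?_, ?_, ?_, hP0, ?_⟩
  · rw [Fintype.card_sum, Fintype.card_prod, Fintype.card_fin, Fintype.card_fin]
    exact Nat.add_le_add hMs (Nat.mul_le_mul hMs hN)
  · intro u
    rw [entryD (Du u) T f e a b hf hb0 hT, Fintype.sum_sum_type, Fintype.sum_prod_type]
    rfl
  · rintro (t | ⟨t, v⟩)
    · exact mul_ne_zero (hb0 t) (hb0 t)
    · exact mul_ne_zero (hb0 t) (hf v)
  · rintro u (t | ⟨t, v⟩)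
    · show Mon (la t ⊔ lb t) (vec (sb t) + vec (sb t) + zvec (iv (sa t) - iv (sb t)))
        (Du u (a t) * b t - a t * Du u (b t))
      have hν : vec (sb t) + vec (sb t) + zvec (iv (sa t) - iv (sb t)) =
          vec (sa t) + vec (sb t) := by
        rw [zvec_sub]
        abel
      rw [hν]
      exact (m4 _ _ _ _ (m1 _ _ _ _ _ _ (m5 _ _ _ u (ha1 t)) (hb1 t))
        (m1 _ _ _ _ _ _ (ha1 t) (m5 _ _ _ u (hb1 t)))).1
    · show Mon (la t ⊔ lb t ⊔ lf v) (vec (sb t) + vec (sf v) + zvec (iv (sa t) - iv (sb t)))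
        (C ((e v : ℕ) : E) * (a t * Du u (f v)))
      have hν : vec (sb t) + vec (sf v) + zvec (iv (sa t) - iv (sb t)) =
          vec (sa t) + vec (sf v) := by
        rw [zvec_sub]
        abel
      rw [hν]
      refine mon_C _ _ _ _ (m3 (la t ⊔ lf v) _ _ _ ?_ (m1 _ _ _ _ _ _ (ha1 t)
        (m5 _ _ _ u (hf1 v))))
      exact sup_le (le_sup_left.trans le_sup_left) le_sup_right
  · rintro (t | ⟨t, v⟩)
    · show Mon (la t ⊔ lb t) (vec (sb t) + vec (sb t)) (b t * b t)
      exact m3 _ _ _ _ (sup_le le_sup_right le_sup_right) (m1 _ _ _ _ _ _ (hb1 t) (hb1 t))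
    · show Mon (la t ⊔ lb t ⊔ lf v) (vec (sb t) + vec (sf v)) (b t * f v)
      exact m3 _ _ _ _ (sup_le (le_sup_right.trans le_sup_left) le_sup_right)
        (m1 _ _ _ _ _ _ (hb1 t) (hf1 v))
  · rintro (t | ⟨t, v⟩)
    · exact i1 _ _ _ _ (ha2 t) (hb2 t)
    · exact i1 _ _ _ _ (i1 _ _ _ _ (ha2 t) (hb2 t)) (hf2 v)
  · rintro (t | ⟨t, v⟩)
    · show Module.finrank ℚ (la t ⊔ lb t : Submodule ℚ (ℕ →₀ ℚ)) ≤ 3 * c
      have h1 := habr t
      omega
    · show Module.finrank ℚ (la t ⊔ lb t ⊔ lf v : Submodule ℚ (ℕ →₀ ℚ)) ≤ 3 * c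
      have h1 := habr t
      have h2 := i6 (la t ⊔ lb t) (lf v) (hab t) (hf3 v)
      have h3 := hf4 v
      omega
  · have hδ : ∀ t, (∀ l, |(iv (sa t) - iv (sb t)) l| ≤ (D : ℤ)) ∧
        ∀ l, n ≤ l → (iv (sa t) - iv (sb t)) l = 0 := by
      intro t
      have hval : ∀ l, (iv (sa t) - iv (sb t)) l = (sa t l : ℤ) - (sb t l : ℤ) := by
        intro l
        simp [iv]
      refine ⟨fun l => ?_, fun l hl => ?_⟩
      · rw [hval, abs_le]
        have h1 := ha5 t l
        have h2 := hb5 t l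
        constructor <;> omega
      · rw [hval, ha6 t l hl, hb6 t l hl]
        simp
    rintro (t | ⟨t, v⟩)
    · exact hδ t
    · exact hδ t
  · intro e' he'
    rw [map_prod]
    refine Finset.prod_ne_zero_iff.2 fun v _ => ?_
    rw [map_pow]
    refine pow_ne_zero _ ?_
    refine hSnz E e' (lf v) (vec (sf v)) (f v) (hf1 v) ?_ (hf v)
    intro x hx
    exact he' (Sum.inr (t₀, v)) x (Submodule.mem_sup_right hx)

end Pool.Agent.TOR.H8
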